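import Pool.Agent.H20Z.CartanMain

set_option autoImplicit false

open scoped Manifold ContDiff
open Pool.Agent.H20Z.Cartan

namespace Pool.Agent.Results.MP_ad9325_ag.ANoFlatGeometry

/-- A compact Kaehler manifold with a holomorphic `G/H`-geometry need not carry a holomorphic
`(G, G/H)`-structure. -/
theorem result :
    ¬ ∀ (a b n m : ℕ)
      (G : Type) [Group G] [TopologicalSpace G] [T2Space G] [SecondCountableTopology G]
      [ConnectedSpace G] [ChartedSpace (Cn a) G] [LieGroup 𝓘(ℂ, Cn a) ω G]
      (H : Type) [Group H] [TopologicalSpace H] [T2Space H] [SecondCountableTopology H]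
      [ChartedSpace (Cn b) H] [LieGroup 𝓘(ℂ, Cn b) ω H]
      (X : Type) [TopologicalSpace X] [T2Space X] [SecondCountableTopology X]
      [ChartedSpace (Cn n) X] [IsManifold 𝓘(ℂ, Cn n) ω X] [MulAction G X]
      (ι : H →* G) (x₀ : X)
      (M : Type) [TopologicalSpace M] [T2Space M] [CompactSpace M] [ConnectedSpace M]
      [ChartedSpace (Cn m) M] [IsManifold 𝓘(ℂ, Cn m) ω M],
      IsModel a b n ι x₀ → IsKaehler m M →
      HasCartanGeometry a b m ι M → HasGXStructure n m G X M := by
  intro h
  exact not_hasGX (h 2 0 2 2 Aff Triv Aff 1 1 Tor isModel ⟨_, kaehler_flat⟩ hasGeometry)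

end Pool.Agent.Results.MP_ad9325_ag.ANoFlatGeometry
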